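import Pool.Agent.W58.GU.Stm

set_option autoImplicit false

namespace Pool.Agent.W653.GU

open Pool.Agent.W58.GU

/-- the weights -/
def mm (i : ℕ) : ℕ := 2 ^ (2 ^ i)

/-- the lengths -/
def nn : ℕ → ℕ
  | 0 => mm 0 ^ 2 * 3 ^ (2 * mm 0 + 1)
  | i + 1 => mm (i + 1) ^ 2 * (3 * nn i) ^ (2 * mm (i + 1) + 1)

theorem mm_pos (i : ℕ) : 0 < mm i := by
  unfold mm
  positivity

theorem nn_pos (i : ℕ) : 0 < nn i := by
  induction i with
  | zero =>
    have := mm_pos 0
    unfold nn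
    positivity
  | succ i ih =>
    have := mm_pos (i + 1)
    unfold nn
    positivity

theorem nn_le (i : ℕ) : nn i ≤ nn (i + 1) := by
  have h1 := mm_pos (i + 1)
  have h2 := nn_pos i
  have h3 : 3 * nn i ≤ (3 * nn i) ^ (2 * mm (i + 1) + 1) := Nat.le_self_pow (by omega) _
  have h4 : 1 ≤ mm (i + 1) ^ 2 := Nat.one_le_pow _ _ h1
  calc nn i ≤ 3 * nn i := by omega
    _ ≤ 1 * (3 * nn i) ^ (2 * mm (i + 1) + 1) := by rw [one_mul]; exact h3
    _ ≤ mm (i + 1) ^ 2 * (3 * nn i) ^ (2 * mm (i + 1) + 1) := Nat.mul_le_mul_right _ h4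

theorem par : S_PAR := by
  obtain ⟨enc, henc⟩ := exists_injective_nat (List (ℕ × (ℕ →₀ ℚ)))
  refine ⟨{ m := mm, n := nn,
            σ := fun L => 4 * (Nat.pair (enc L) (L.map Prod.fst).sum + 1),
            hm1 := ?_, hm2 := ?_, hn := ?_, hσ := ?_, hσ4 := ?_, hσlt := ?_ }⟩
  · intro i
    have h1 : i + 1 ≤ 2 ^ i := Nat.lt_two_pow_self
    have h2 : i + 1 < 2 ^ (i + 1) := Nat.lt_two_pow_self
    have h3 : 2 ^ (i + 1) ≤ 2 ^ (2 ^ i) := Nat.pow_le_pow_right (by norm_num) h1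
    unfold mm
    omega
  · intro i
    unfold mm
    rw [← pow_mul, ← pow_succ]
  · intro i
    cases i with
    | zero =>
      refine ⟨1, le_rfl, ?_, ?_⟩
      · intro i' hi'
        omega
      · show mm 0 ^ 2 * (3 * 1) ^ (2 * mm 0 + 1) ≤ mm 0 ^ 2 * 3 ^ (2 * mm 0 + 1)
        rw [mul_one]
    | succ i =>
      refine ⟨nn i, nn_pos i, ?_, le_rfl⟩
      intro i' hi'
      exact (monotone_nat_of_le_succ nn_le) (Nat.lt_succ_iff.mp hi')
  · intro L L' h
    dsimp only at h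
    have h1 : Nat.pair (enc L) (L.map Prod.fst).sum = Nat.pair (enc L') (L'.map Prod.fst).sum := by
      omega
    exact henc (Nat.pair_eq_pair.mp h1).1
  · intro L
    exact Nat.mul_mod_right 4 _
  · intro L p hp
    have h1 : p.1 ≤ (L.map Prod.fst).sum := List.single_le_sum (by simp) _ (List.mem_map_of_mem hp)
    have h2 := Nat.right_le_pair (enc L) (L.map Prod.fst).sum
    omega

end Pool.Agent.W653.GU
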